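import Mathlib

/-!
Analytic core for the height of the critical beta-splitting tree.
-/

set_option autoImplicit false

namespace Pool.Agent.Helper48.CTCS

open Finset MeasureTheory

noncomputable section

/-- The harmonic sum `h_{n-1}`. -/
def lam (n : ℕ) : ℝ := ∑ j ∈ Finset.Icc 1 (n - 1), 1 / (j : ℝ)

/-- The gain term. -/
def Phi (F : ℕ → ℝ → ℝ) (n : ℕ) (s : ℝ) : ℝ :=
  ∑ j ∈ Finset.Icc 1 (n - 1), 1 / (j : ℝ) * (F j s * F (n - j) s)

/-- The system of integral equations satisfied by the distribution functions. -/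
structure Sys (F : ℕ → ℝ → ℝ) : Prop where
  nonneg : ∀ n t, 0 ≤ F n t
  le_one : ∀ n t, F n t ≤ 1
  mono : ∀ n, Monotone (F n)
  one : ∀ t, 0 ≤ t → F 1 t = 1
  eq : ∀ n, 2 ≤ n → ∀ t, 0 ≤ t →
    F n t = ∫ s in (0:ℝ)..t, Real.exp (-(lam n * s)) * Phi F n (t - s)

lemma lam_nonneg (n : ℕ) : 0 ≤ lam n := by
  unfold lam
  apply Finset.sum_nonneg
  intro i _
  positivity

variable {F : ℕ → ℝ → ℝ}

lemma Sys.Phi_mono (hF : Sys F) (n : ℕ) : Monotone (Phi F n) := by
  intro s t hst
  unfold Phi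
  apply Finset.sum_le_sum
  intro j _
  apply mul_le_mul_of_nonneg_left _ (by positivity)
  exact mul_le_mul (hF.mono _ hst) (hF.mono _ hst) (hF.nonneg _ _) (hF.nonneg _ _)

lemma Sys.integrable (hF : Sys F) (n : ℕ) (t : ℝ) :
    IntervalIntegrable (fun s => Real.exp (-(lam n * s)) * Phi F n (t - s)) volume 0 t := by
  have h1 : Antitone (fun s => Phi F n (t - s)) := by
    intro a b hab
    exact hF.Phi_mono n (by linarith)
  have h2 : IntervalIntegrable (fun s => Phi F n (t - s)) volume 0 t := h1.intervalIntegrable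
  exact h2.continuousOn_mul (Continuous.continuousOn (by fun_prop))

lemma deriv_aux (l : ℝ) {U U' : ℝ → ℝ} (hU : ∀ s, HasDerivAt U (U' s) s) (t s : ℝ) :
    HasDerivAt (fun s => -(Real.exp (-(l * s)) * U (t - s)))
      (Real.exp (-(l * s)) * (U' (t - s) + l * U (t - s))) s := by
  have h1 : HasDerivAt (fun s : ℝ => Real.exp (-(l * s))) (Real.exp (-(l * s)) * (-l)) s := by
    have : HasDerivAt (fun s : ℝ => -(l * s)) (-l) s := by
      simpa using ((hasDerivAt_id' s).const_mul l).fun_neg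
    exact this.exp
  have h2 : HasDerivAt (fun s : ℝ => U (t - s)) (-(U' (t - s))) s := by
    have h3 : HasDerivAt (fun s : ℝ => t - s) (-1) s := by
      simpa using (hasDerivAt_id s).const_sub t
    have := (hU (t - s)).comp s h3
    simpa [Function.comp_def] using this
  have h3 := (h1.mul h2).fun_neg
  refine h3.congr_deriv ?_
  ring

lemma integral_aux (l : ℝ) {U U' : ℝ → ℝ} (hU : ∀ s, HasDerivAt U (U' s) s)
    (hc : Continuous U') (t : ℝ) :
    IntervalIntegrable (fun s => Real.exp (-(l * s)) * (U' (t - s) + l * U (t - s))) volume 0 t ∧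
    ∫ s in (0:ℝ)..t, Real.exp (-(l * s)) * (U' (t - s) + l * U (t - s)) =
      U t - Real.exp (-(l * t)) * U 0 := by
  have hUc : Continuous U := continuous_iff_continuousAt.mpr (fun s => (hU s).continuousAt)
  have hint : IntervalIntegrable
      (fun s => Real.exp (-(l * s)) * (U' (t - s) + l * U (t - s))) volume 0 t := by
    apply Continuous.intervalIntegrable
    fun_prop
  refine ⟨hint, ?_⟩
  rw [intervalIntegral.integral_eq_sub_of_hasDerivAt (fun s _ => deriv_aux l hU t s) hint]
  simp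
  ring

/-- Comparison from above. -/
lemma Sys.le_of_super (hF : Sys F) {n : ℕ} (hn : 2 ≤ n) {t : ℝ} (ht : 0 ≤ t) {U U' : ℝ → ℝ}
    (hU : ∀ s, HasDerivAt U (U' s) s) (hc : Continuous U') (h0 : 0 ≤ U 0)
    (hs : ∀ s, 0 ≤ s → s ≤ t → Phi F n s ≤ U' s + lam n * U s) : F n t ≤ U t := by
  obtain ⟨hint, hval⟩ := integral_aux (lam n) hU hc t
  rw [hF.eq n hn t ht]
  calc ∫ s in (0:ℝ)..t, Real.exp (-(lam n * s)) * Phi F n (t - s)
      ≤ ∫ s in (0:ℝ)..t, Real.exp (-(lam n * s)) * (U' (t - s) + lam n * U (t - s)) := by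
        apply intervalIntegral.integral_mono_on ht (hF.integrable n t) hint
        intro s hs1
        apply mul_le_mul_of_nonneg_left _ (Real.exp_pos _).le
        exact hs _ (by linarith [hs1.2]) (by linarith [hs1.1])
    _ = U t - Real.exp (-(lam n * t)) * U 0 := hval
    _ ≤ U t := by
        have := mul_nonneg (Real.exp_pos (-(lam n * t))).le h0
        linarith

/-- Comparison from below. -/
lemma Sys.ge_of_sub (hF : Sys F) {n : ℕ} (hn : 2 ≤ n) {t : ℝ} (ht : 0 ≤ t) {U U' : ℝ → ℝ}
    (hU : ∀ s, HasDerivAt U (U' s) s) (hc : Continuous U') (h0 : U 0 ≤ 0)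
    (hs : ∀ s, 0 ≤ s → s ≤ t → U' s + lam n * U s ≤ Phi F n s) : U t ≤ F n t := by
  obtain ⟨hint, hval⟩ := integral_aux (lam n) hU hc t
  rw [hF.eq n hn t ht]
  calc U t ≤ U t - Real.exp (-(lam n * t)) * U 0 := by
        have := mul_nonneg (Real.exp_pos (-(lam n * t))).le (neg_nonneg.mpr h0)
        linarith
    _ = ∫ s in (0:ℝ)..t, Real.exp (-(lam n * s)) * (U' (t - s) + lam n * U (t - s)) := hval.symm
    _ ≤ ∫ s in (0:ℝ)..t, Real.exp (-(lam n * s)) * Phi F n (t - s) := by
        apply intervalIntegral.integral_mono_on ht hint (hF.integrable n t)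
        intro s hs1
        apply mul_le_mul_of_nonneg_left _ (Real.exp_pos _).le
        exact hs _ (by linarith [hs1.2]) (by linarith [hs1.1])

/-! ### Summation identities -/

lemma sum_reflect (n : ℕ) (f : ℕ → ℝ) :
    ∑ j ∈ Finset.Icc 1 (n - 1), f (n - j) = ∑ j ∈ Finset.Icc 1 (n - 1), f j := by
  apply Finset.sum_nbij' (fun j => n - j) (fun j => n - j)
  · intro j hj
    simp only [Finset.mem_Icc] at hj ⊢
    omega
  · intro j hj
    simp only [Finset.mem_Icc] at hj ⊢
    omega
  · intro j hj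
    simp only [Finset.mem_Icc] at hj
    omega
  · intro j hj
    simp only [Finset.mem_Icc] at hj
    omega
  · intro j _
    rfl

lemma sum_size (n : ℕ) (g : ℕ → ℝ) :
    ∑ j ∈ Finset.Icc 1 (n - 1), 1 / (j : ℝ) * ((j : ℝ) * g j + ((n : ℝ) - j) * g (n - j)) =
      n * ∑ j ∈ Finset.Icc 1 (n - 1), 1 / (j : ℝ) * g (n - j) := by
  have h1 : ∑ j ∈ Finset.Icc 1 (n - 1), 1 / (j : ℝ) * ((j : ℝ) * g j + ((n : ℝ) - j) * g (n - j))
      = ∑ j ∈ Finset.Icc 1 (n - 1), g j +
        ∑ j ∈ Finset.Icc 1 (n - 1), 1 / (j : ℝ) * (((n : ℝ) - j) * g (n - j)) := by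
    rw [← Finset.sum_add_distrib]
    apply Finset.sum_congr rfl
    intro j hj
    simp only [Finset.mem_Icc] at hj
    have : (j : ℝ) ≠ 0 := by
      have : 0 < j := hj.1
      positivity
    field_simp
  rw [h1, ← sum_reflect n g, ← Finset.sum_add_distrib, Finset.mul_sum]
  apply Finset.sum_congr rfl
  intro j hj
  simp only [Finset.mem_Icc] at hj
  have : (j : ℝ) ≠ 0 := by
    have : 0 < j := hj.1
    positivity
  field_simp
  ring

lemma sum_const_Icc {n : ℕ} (hn : 1 ≤ n) : ∑ _j ∈ Finset.Icc 1 (n - 1), (1 : ℝ) = n - 1 := by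
  simp
  rw [Nat.cast_sub hn]
  simp

lemma sum_id_Icc {n : ℕ} (hn : 1 ≤ n) :
    ∑ j ∈ Finset.Icc 1 (n - 1), (j : ℝ) = n * (n - 1) / 2 := by
  have h : ∀ m : ℕ, ∑ j ∈ Finset.Icc 1 m, (j : ℝ) = m * (m + 1) / 2 := by
    intro m
    induction m with
    | zero => simp
    | succ k ih =>
      rw [Finset.sum_Icc_succ_top (by omega), ih]
      push_cast
      ring
  rw [h, Nat.cast_sub hn]
  push_cast
  ring

/-- First eigenfunction. -/
lemma eig_one {n : ℕ} (hn : 1 ≤ n) :
    ∑ j ∈ Finset.Icc 1 (n - 1), 1 / (j : ℝ) * ((n : ℝ) - j - 1) = (lam n - 1) * (n - 1) := by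
  have h1 : ∑ j ∈ Finset.Icc 1 (n - 1), 1 / (j : ℝ) * ((n : ℝ) - j - 1) =
      ∑ j ∈ Finset.Icc 1 (n - 1), (((n : ℝ) - 1) * (1 / (j : ℝ)) - 1) := by
    apply Finset.sum_congr rfl
    intro j hj
    simp only [Finset.mem_Icc] at hj
    have : (j : ℝ) ≠ 0 := by
      have : 0 < j := hj.1
      positivity
    field_simp
    ring
  rw [h1, Finset.sum_sub_distrib, ← Finset.mul_sum, sum_const_Icc hn]
  unfold lam
  ring

/-- Second eigenfunction. -/
lemma eig_two {n : ℕ} (hn : 1 ≤ n) :
    ∑ j ∈ Finset.Icc 1 (n - 1), 1 / (j : ℝ) * (((n : ℝ) - j - 1) * ((n : ℝ) - j - 2)) =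
      (lam n - 3 / 2) * ((n - 1) * (n - 2)) := by
  have h1 : ∑ j ∈ Finset.Icc 1 (n - 1), 1 / (j : ℝ) * (((n : ℝ) - j - 1) * ((n : ℝ) - j - 2)) =
      ∑ j ∈ Finset.Icc 1 (n - 1),
        (((n : ℝ) - 1) * (n - 2) * (1 / (j : ℝ)) - (2 * n - 3) * 1 + (j : ℝ)) := by
    apply Finset.sum_congr rfl
    intro j hj
    simp only [Finset.mem_Icc] at hj
    have : (j : ℝ) ≠ 0 := by
      have : 0 < j := hj.1
      positivity
    field_simp
    ring
  rw [h1, Finset.sum_add_distrib, Finset.sum_sub_distrib, ← Finset.mul_sum, ← Finset.mul_sum,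
    sum_const_Icc hn, sum_id_Icc hn]
  unfold lam
  ring

/-! ### The upper bound on the height -/

lemma Sys.tail_upper (hF : Sys F) : ∀ n : ℕ, 1 ≤ n → ∀ t : ℝ, 0 ≤ t →
    1 - (n : ℝ) * (n - 1) * Real.exp (-t) ≤ F n t := by
  intro n
  induction n using Nat.strong_induction_on with
  | _ n ih =>
    intro hn t ht
    rcases Nat.lt_or_ge n 2 with h2 | h2
    · have : n = 1 := by omega
      subst this
      rw [hF.one t ht]
      simp
    · have hU : ∀ s, HasDerivAt (fun s => 1 - (n : ℝ) * (n - 1) * Real.exp (-s))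
          ((n : ℝ) * (n - 1) * Real.exp (-s)) s := by
        intro s
        have h3 : HasDerivAt (fun s : ℝ => Real.exp (-s)) (-Real.exp (-s)) s := by
          simpa using (hasDerivAt_neg s).exp
        have h4 := (h3.const_mul ((n : ℝ) * (n - 1))).const_sub 1
        refine h4.congr_deriv ?_
        ring
      have hn1 : (2 : ℝ) ≤ n := by exact_mod_cast h2
      apply hF.ge_of_sub h2 ht hU (by fun_prop)
      · simp only [neg_zero, Real.exp_zero, mul_one]
        nlinarith
      · intro s hs0 hst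
        have hkey : ∀ j ∈ Finset.Icc 1 (n - 1),
            1 / (j : ℝ) * 1 - Real.exp (-s) * (1 / (j : ℝ) * ((j : ℝ) * ((j : ℝ) - 1) +
              ((n : ℝ) - j) * (((n - j : ℕ) : ℝ) - 1))) ≤
            1 / (j : ℝ) * (F j s * F (n - j) s) := by
          intro j hj
          simp only [Finset.mem_Icc] at hj
          have e1 := ih j (by omega) hj.1 s hs0
          have e2 := ih (n - j) (by omega) (by omega) s hs0
          have e3 : ((n - j : ℕ) : ℝ) = (n : ℝ) - j := by
            rw [Nat.cast_sub (by omega)]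
          have e4 : 1 - (1 - F j s) - (1 - F (n - j) s) ≤ F j s * F (n - j) s := by
            nlinarith [hF.le_one j s, hF.le_one (n - j) s]
          have hj0 : (0 : ℝ) < 1 / (j : ℝ) := by
            have : 0 < j := hj.1
            positivity
          rw [e3] at e2 ⊢
          have e5 : 1 - Real.exp (-s) * ((j : ℝ) * ((j : ℝ) - 1) +
              ((n : ℝ) - j) * ((n : ℝ) - j - 1)) ≤ F j s * F (n - j) s := by
            nlinarith
          calc _ = 1 / (j : ℝ) * (1 - Real.exp (-s) * ((j : ℝ) * ((j : ℝ) - 1) +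
              ((n : ℝ) - j) * ((n : ℝ) - j - 1))) := by ring
            _ ≤ _ := mul_le_mul_of_nonneg_left e5 hj0.le
        have hsum := Finset.sum_le_sum hkey
        rw [Finset.sum_sub_distrib, ← Finset.mul_sum, sum_size n (fun m => (m : ℝ) - 1)] at hsum
        have h5 : ∑ j ∈ Finset.Icc 1 (n - 1), 1 / (j : ℝ) * (((n - j : ℕ) : ℝ) - 1) =
            (lam n - 1) * (n - 1) := by
          rw [← eig_one hn]
          apply Finset.sum_congr rfl
          intro j hj
          simp only [Finset.mem_Icc] at hj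
          rw [Nat.cast_sub (by omega)]
        rw [h5] at hsum
        have h6 : ∑ j ∈ Finset.Icc 1 (n - 1), 1 / (j : ℝ) * (1 : ℝ) = lam n := by
          simp [lam]
        rw [h6] at hsum
        unfold Phi
        calc _ = lam n - Real.exp (-s) * (↑n * ((lam n - 1) * (↑n - 1))) := by ring
          _ ≤ _ := hsum

/-! ### The correction term -/

/-- `g n = (n-1) √(n-2)`. -/
def g (n : ℕ) : ℝ := ((n : ℝ) - 1) * Real.sqrt ((n : ℝ) - 2)

lemma sqrt_tangent {x r : ℝ} (hx : 0 ≤ x) (hr : 0 < r) :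
    Real.sqrt x ≤ (r ^ 2 + x) / (2 * r) := by
  rw [le_div_iff₀ (by positivity)]
  have h1 := Real.sq_sqrt hx
  nlinarith [sq_nonneg (r - Real.sqrt x)]

lemma sqrt_tangent' {x r : ℝ} (hx : 0 ≤ x) (hr : 0 < r) (h : 2 * x ≤ r ^ 2) :
    Real.sqrt x ≤ (r ^ 2 + x) / (2 * r) - r / 24 := by
  have h1 := Real.sq_sqrt hx
  have h0 := Real.sqrt_nonneg x
  have h2 : Real.sqrt x ≤ 0.71 * r := by
    apply Real.sqrt_le_iff.mpr
    constructor
    · positivity
    · nlinarith
  have h3 : Real.sqrt x + r / 24 ≤ (r ^ 2 + x) / (2 * r) := by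
    rw [le_div_iff₀ (by positivity)]
    nlinarith [sq_nonneg (r - Real.sqrt x)]
  linarith

/-- The index set where we gain. -/
def low (n : ℕ) : Finset ℕ := (Finset.Icc 1 (n - 1)).filter (fun j => n + 2 * j ≥ 2 * n - 2 ∧ j + 2 ≤ n)

lemma g_sum_le {n : ℕ} (hn : 3 ≤ n) :
    ∑ j ∈ Finset.Icc 1 (n - 1), 1 / (j : ℝ) * g (n - j) ≤
      (lam n - 5 / 4) * g n -
        Real.sqrt ((n : ℝ) - 2) / 24 * ∑ j ∈ low n, 1 / (j : ℝ) * ((n : ℝ) - j - 1) := by
  have hn3 : (3 : ℝ) ≤ n := by exact_mod_cast hn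
  set r := Real.sqrt ((n : ℝ) - 2) with hr
  have hr2 : r ^ 2 = (n : ℝ) - 2 := Real.sq_sqrt (by linarith)
  have hr0 : 0 < r := Real.sqrt_pos.mpr (by linarith)
  have key : ∀ j ∈ Finset.Icc 1 (n - 1), 1 / (j : ℝ) * g (n - j) ≤
      (r / 2) * (1 / (j : ℝ) * ((n : ℝ) - j - 1)) +
      (1 / (2 * r)) * (1 / (j : ℝ) * (((n : ℝ) - j - 1) * ((n : ℝ) - j - 2))) -
      (if (n + 2 * j ≥ 2 * n - 2 ∧ j + 2 ≤ n) then
        r / 24 * (1 / (j : ℝ) * ((n : ℝ) - j - 1)) else 0) := by
    intro j hj
    simp only [Finset.mem_Icc] at hj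
    have hj0 : (0 : ℝ) < 1 / (j : ℝ) := by
      have : 0 < j := hj.1
      positivity
    unfold g
    rw [Nat.cast_sub (by omega)]
    by_cases hjn : j + 2 ≤ n
    · have hx : (0 : ℝ) ≤ (n : ℝ) - j - 2 := by
        have : (j : ℝ) + 2 ≤ n := by exact_mod_cast hjn
        linarith
      have hw : 0 ≤ 1 / (j : ℝ) * ((n : ℝ) - j - 1) := mul_nonneg hj0.le (by linarith)
      by_cases hlow : n + 2 * j ≥ 2 * n - 2
      · rw [if_pos ⟨hlow, hjn⟩]
        have h2 : 2 * ((n : ℝ) - j - 2) ≤ r ^ 2 := by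
          rw [hr2]
          have : 2 * n - 2 ≤ n + 2 * j := hlow
          have h3 : 2 * n ≤ n + 2 * j + 2 := by omega
          have h4 : (2 : ℝ) * n ≤ n + 2 * j + 2 := by exact_mod_cast h3
          linarith
        have h5 := sqrt_tangent' hx hr0 h2
        calc 1 / (j : ℝ) * (((n : ℝ) - j - 1) * Real.sqrt ((n : ℝ) - j - 2))
            = (1 / (j : ℝ) * ((n : ℝ) - j - 1)) * Real.sqrt ((n : ℝ) - j - 2) := by ring
          _ ≤ (1 / (j : ℝ) * ((n : ℝ) - j - 1)) *
              ((r ^ 2 + ((n : ℝ) - j - 2)) / (2 * r) - r / 24) :=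
              mul_le_mul_of_nonneg_left h5 hw
          _ = _ := by
              field_simp
      · rw [if_neg (by tauto)]
        have h5 := sqrt_tangent hx hr0
        calc 1 / (j : ℝ) * (((n : ℝ) - j - 1) * Real.sqrt ((n : ℝ) - j - 2))
            = (1 / (j : ℝ) * ((n : ℝ) - j - 1)) * Real.sqrt ((n : ℝ) - j - 2) := by ring
          _ ≤ (1 / (j : ℝ) * ((n : ℝ) - j - 1)) *
              ((r ^ 2 + ((n : ℝ) - j - 2)) / (2 * r)) :=
              mul_le_mul_of_nonneg_left h5 hw
          _ = _ := by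
              field_simp
              ring
    · rw [if_neg (by tauto)]
      have h1 : (n : ℝ) - j - 1 = 0 := by
        have : n = j + 1 := by omega
        rw [this]
        push_cast
        ring
      rw [h1]
      simp
  have hsum := Finset.sum_le_sum key
  rw [Finset.sum_sub_distrib, Finset.sum_add_distrib, ← Finset.mul_sum, ← Finset.mul_sum,
    eig_one (by omega), eig_two (by omega), ← Finset.sum_filter, ← Finset.mul_sum] at hsum
  refine hsum.trans (le_of_eq ?_)
  unfold low g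
  rw [← hr]
  have : r / 2 * ((lam n - 1) * ((n : ℝ) - 1)) +
      1 / (2 * r) * ((lam n - 3 / 2) * (((n : ℝ) - 1) * ((n : ℝ) - 2))) =
      (lam n - 5 / 4) * (((n : ℝ) - 1) * r) := by
    rw [← hr2]
    field_simp
    ring
  rw [this]

lemma gain_ge {n : ℕ} (hn : 4 ≤ n) :
    (n : ℝ) / 10 ≤ ∑ j ∈ low n, 1 / (j : ℝ) * ((n : ℝ) - j - 1) := by
  -- compare with the sum over k = n - j - 1, 1 ≤ k ≤ n / 2
  have h1 : ∑ k ∈ Finset.Icc 1 (n / 2), (k : ℝ) / n ≤
      ∑ j ∈ low n, 1 / (j : ℝ) * ((n : ℝ) - j - 1) := by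
    have h2 : ∑ k ∈ Finset.Icc 1 (n / 2), (k : ℝ) / n ≤
        ∑ k ∈ Finset.Icc 1 (n / 2), 1 / ((n - 1 - k : ℕ) : ℝ) * (k : ℝ) := by
      apply Finset.sum_le_sum
      intro k hk
      simp only [Finset.mem_Icc] at hk
      have h3 : 0 < n - 1 - k := by omega
      have h4 : ((n - 1 - k : ℕ) : ℝ) ≤ n := by exact_mod_cast (by omega)
      have h5 : (0 : ℝ) < ((n - 1 - k : ℕ) : ℝ) := by exact_mod_cast h3
      rw [div_eq_mul_one_div, mul_comm]
      apply mul_le_mul_of_nonneg_right _ (by positivity)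
      exact one_div_le_one_div_of_le h5 h4
    refine h2.trans (le_of_eq ?_)
    apply Finset.sum_nbij' (fun k => n - 1 - k) (fun j => n - 1 - j)
    · intro k hk
      simp only [Finset.mem_Icc, low, Finset.mem_filter] at hk ⊢
      omega
    · intro j hj
      simp only [Finset.mem_Icc, low, Finset.mem_filter] at hj ⊢
      omega
    · intro k hk
      simp only [Finset.mem_Icc] at hk
      omega
    · intro j hj
      simp only [Finset.mem_Icc, low, Finset.mem_filter] at hj
      omega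
    · intro k hk
      simp only [Finset.mem_Icc] at hk
      have : ((n - 1 - k : ℕ) : ℝ) = (n : ℝ) - 1 - k := by
        rw [Nat.cast_sub (by omega), Nat.cast_sub (by omega)]
        simp
      rw [this]
      ring
  refine le_trans ?_ h1
  rw [← Finset.sum_div]
  have h3 : ∑ k ∈ Finset.Icc 1 (n / 2), (k : ℝ) = ((n / 2 : ℕ) : ℝ) * (((n / 2 : ℕ) : ℝ) + 1) / 2 := by
    have := sum_id_Icc (n := n / 2 + 1) (by omega)
    simp only [Nat.add_sub_cancel] at this
    rw [this]
    push_cast
    ring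
  rw [h3]
  have h4 : ((n : ℝ) - 1) / 2 ≤ ((n / 2 : ℕ) : ℝ) := by
    have : n ≤ 2 * (n / 2) + 1 := by omega
    have : (n : ℝ) ≤ 2 * ((n / 2 : ℕ) : ℝ) + 1 := by exact_mod_cast this
    linarith
  have hn4 : (4 : ℝ) ≤ n := by exact_mod_cast hn
  rw [le_div_iff₀ (by linarith)]
  nlinarith

lemma g_sum_le' {n : ℕ} (hn : 4 ≤ n) :
    ∑ j ∈ Finset.Icc 1 (n - 1), 1 / (j : ℝ) * g (n - j) ≤
      (lam n - 5 / 4) * g n - (n : ℝ) * Real.sqrt n / 400 := by
  refine (g_sum_le (by omega)).trans ?_
  have hn4 : (4 : ℝ) ≤ n := by exact_mod_cast hn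
  have h1 := gain_ge hn
  have h2 : 0.7 * Real.sqrt n ≤ Real.sqrt ((n : ℝ) - 2) := by
    apply Real.le_sqrt_of_sq_le
    have := Real.sq_sqrt (show (0 : ℝ) ≤ n by linarith)
    nlinarith
  have h3 : 0 ≤ Real.sqrt n := Real.sqrt_nonneg _
  have h4 : (n : ℝ) * Real.sqrt n / 400 ≤
      Real.sqrt ((n : ℝ) - 2) / 24 * ∑ j ∈ low n, 1 / (j : ℝ) * ((n : ℝ) - j - 1) := by
    calc (n : ℝ) * Real.sqrt n / 400 ≤ (0.7 * Real.sqrt n) / 24 * ((n : ℝ) / 10) := by
          have : 0 ≤ (n : ℝ) * Real.sqrt n := by positivity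
          nlinarith
      _ ≤ Real.sqrt ((n : ℝ) - 2) / 24 * ∑ j ∈ low n, 1 / (j : ℝ) * ((n : ℝ) - j - 1) := by
          apply mul_le_mul _ h1 (by positivity) (by positivity)
          linarith
  linarith

lemma g_sum_le_small {n : ℕ} (hn : 2 ≤ n) (hn' : n < 4) :
    ∑ j ∈ Finset.Icc 1 (n - 1), 1 / (j : ℝ) * g (n - j) ≤ (lam n - 5 / 4) * g n := by
  interval_cases n
  · simp [g]
  · refine (g_sum_le (by omega)).trans ?_
    have h : 0 ≤ ∑ j ∈ low 3, 1 / (j : ℝ) * (((3 : ℕ) : ℝ) - j - 1) := by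
      apply Finset.sum_nonneg
      intro j hj
      simp only [Finset.mem_Icc, low, Finset.mem_filter] at hj
      have h1 : j = 1 := by omega
      subst h1
      norm_num
    have h2 := Real.sqrt_nonneg (((3 : ℕ) : ℝ) - 2)
    nlinarith [mul_nonneg h2 h]

/-! ### The sub-solution -/

/-- The per-particle part of the sub-solution. -/
def w (t : ℝ) (n : ℕ) : ℝ :=
  1 / 16 * ((n : ℝ) - 1) * Real.exp (-t) - 25 / 2 * g n * Real.exp (-(5 / 4 * t))

/-- The sub-solution for the tail probabilities. -/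
def v (n : ℕ) (t : ℝ) : ℝ := (n : ℝ) * w t n

/-- Its positive part. -/
def L (n : ℕ) (t : ℝ) : ℝ := max (v n t) 0

lemma L_nonneg (n : ℕ) (t : ℝ) : 0 ≤ L n t := le_max_right _ _

lemma v_le_L (n : ℕ) (t : ℝ) : v n t ≤ L n t := le_max_left _ _

lemma exp_four (t : ℝ) : Real.exp (-t) = Real.exp (-(t / 4)) ^ 4 := by
  rw [← Real.exp_nat_mul]
  congr 1
  push_cast
  ring

lemma exp_five (t : ℝ) : Real.exp (-(5 / 4 * t)) = Real.exp (-(t / 4)) ^ 5 := by
  rw [← Real.exp_nat_mul]
  congr 1
  push_cast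
  ring

lemma v_eq (n : ℕ) (t : ℝ) : v n t = (n : ℝ) * ((n : ℝ) - 1) * Real.exp (-(t / 4)) ^ 4 *
    (1 / 16 - 25 / 2 * (Real.sqrt ((n : ℝ) - 2) * Real.exp (-(t / 4)))) := by
  unfold v w g
  rw [exp_four, exp_five]
  ring

lemma v_one (t : ℝ) : v 1 t = 0 := by simp [v_eq]

lemma v_zero (t : ℝ) : v 0 t = 0 := by simp [v_eq]

lemma L_one (t : ℝ) : L 1 t = 0 := by simp [L, v_one]

lemma v_le_u (n : ℕ) (t : ℝ) :
    v n t ≤ (n : ℝ) * ((n : ℝ) - 1) * Real.exp (-(t / 4)) ^ 4 / 16 := by
  rw [v_eq]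
  rcases Nat.eq_zero_or_pos n with h | h
  · subst h; simp
  · have h1 : (1 : ℝ) ≤ n := by exact_mod_cast h
    have h2 : 0 ≤ (n : ℝ) * ((n : ℝ) - 1) * Real.exp (-(t / 4)) ^ 4 :=
      mul_nonneg (mul_nonneg (by linarith) (by linarith)) (by positivity)
    have h3 : 0 ≤ Real.sqrt ((n : ℝ) - 2) * Real.exp (-(t / 4)) := by positivity
    nlinarith [mul_nonneg h2 h3]

lemma v_le_one (n : ℕ) {t : ℝ} (ht : 0 ≤ t) : v n t ≤ 1 := by
  have he : 0 < Real.exp (-(t / 4)) := Real.exp_pos _
  have he1 : Real.exp (-(t / 4)) ≤ 1 := Real.exp_le_one_iff.mpr (by linarith)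
  have he4 : Real.exp (-(t / 4)) ^ 4 ≤ 1 := pow_le_one₀ he.le he1
  rcases Nat.lt_or_ge n 3 with h | h
  · interval_cases n
    · rw [v_zero]; norm_num
    · rw [v_one]; norm_num
    · refine (v_le_u 2 t).trans ?_
      norm_num
      linarith
  · have h3 : (3 : ℝ) ≤ n := by exact_mod_cast h
    set ψ := Real.sqrt ((n : ℝ) - 2) * Real.exp (-(t / 4)) with hψ
    have hψ0 : 0 ≤ ψ := by positivity
    by_cases hc : 1 / 200 ≤ ψ
    · rw [v_eq, ← hψ]
      have h2 : 0 ≤ (n : ℝ) * ((n : ℝ) - 1) * Real.exp (-(t / 4)) ^ 4 :=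
        mul_nonneg (mul_nonneg (by linarith) (by linarith)) (by positivity)
      have : (n : ℝ) * ((n : ℝ) - 1) * Real.exp (-(t / 4)) ^ 4 * (1 / 16 - 25 / 2 * ψ) ≤ 0 :=
        mul_nonpos_of_nonneg_of_nonpos h2 (by linarith)
      linarith
    · push Not at hc
      refine (v_le_u n t).trans ?_
      have h4 : ψ ^ 4 = ((n : ℝ) - 2) ^ 2 * Real.exp (-(t / 4)) ^ 4 := by
        rw [hψ, mul_pow]
        congr 1
        calc Real.sqrt ((n : ℝ) - 2) ^ 4 = (Real.sqrt ((n : ℝ) - 2) ^ 2) ^ 2 := by ring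
          _ = _ := by rw [Real.sq_sqrt (by linarith)]
      have h5 : ψ ^ 4 ≤ 1 := pow_le_one₀ hψ0 (by linarith)
      have h6 : (n : ℝ) * ((n : ℝ) - 1) ≤ 6 * ((n : ℝ) - 2) ^ 2 := by nlinarith
      have h7 : (n : ℝ) * ((n : ℝ) - 1) * Real.exp (-(t / 4)) ^ 4 ≤ 6 * ψ ^ 4 := by
        rw [h4]
        nlinarith [pow_pos he 4]
      linarith

lemma L_le_one (n : ℕ) {t : ℝ} (ht : 0 ≤ t) : L n t ≤ 1 :=
  max_le (v_le_one n ht) zero_le_one

lemma L_le_u {n : ℕ} (hn : 1 ≤ n) (t : ℝ) :
    L n t ≤ (n : ℝ) * ((n : ℝ) - 1) * Real.exp (-(t / 4)) ^ 4 / 16 := by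
  apply max_le (v_le_u n t)
  have h1 : (1 : ℝ) ≤ n := by exact_mod_cast hn
  have : 0 ≤ (n : ℝ) * ((n : ℝ) - 1) * Real.exp (-(t / 4)) ^ 4 :=
      mul_nonneg (mul_nonneg (by linarith) (by linarith)) (by positivity)
  linarith

lemma L_le_y {n : ℕ} (hn : 1 ≤ n) {t : ℝ} (ht : 0 ≤ t) :
    L n t ≤ 1 / 2 * Real.sqrt n * Real.exp (-(t / 4)) := by
  have h1 : (1 : ℝ) ≤ n := by exact_mod_cast hn
  set y := 1 / 2 * Real.sqrt n * Real.exp (-(t / 4)) with hy
  have hy0 : 0 ≤ y := by positivity
  by_cases hc : 1 ≤ y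
  · exact (L_le_one n ht).trans hc
  · push Not at hc
    have h2 : y ^ 4 = (n : ℝ) ^ 2 * Real.exp (-(t / 4)) ^ 4 / 16 := by
      rw [hy, mul_pow, mul_pow]
      have : Real.sqrt (n : ℝ) ^ 4 = (n : ℝ) ^ 2 := by
        calc Real.sqrt (n : ℝ) ^ 4 = (Real.sqrt (n : ℝ) ^ 2) ^ 2 := by ring
          _ = _ := by rw [Real.sq_sqrt (by linarith)]
      rw [this]
      ring
    have h3 : L n t ≤ y ^ 4 := by
      refine (L_le_u hn t).trans ?_
      rw [h2]
      have h4 : 0 < Real.exp (-(t / 4)) ^ 4 := by positivity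
      have h5 : (n : ℝ) * ((n : ℝ) - 1) ≤ (n : ℝ) ^ 2 := by nlinarith
      have := mul_le_mul_of_nonneg_right h5 h4.le
      linarith
    have h4 : y ^ 4 ≤ y := by
      have : y ^ 3 ≤ 1 := pow_le_one₀ hy0 hc.le
      calc y ^ 4 = y ^ 3 * y := by ring
        _ ≤ 1 * y := mul_le_mul_of_nonneg_right this hy0
        _ = y := one_mul y
    exact h3.trans h4

/-- The quadratic term is controlled. -/
lemma quad_le {n : ℕ} (hn : 1 ≤ n) {t : ℝ} (ht : 0 ≤ t) :
    ∑ j ∈ Finset.Icc 1 (n - 1), 1 / (j : ℝ) * (L j t * L (n - j) t) ≤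
      1 / 32 * (n : ℝ) ^ 2 * Real.sqrt n * Real.exp (-(5 / 4 * t)) := by
  have hn1 : (1 : ℝ) ≤ n := by exact_mod_cast hn
  have he : 0 < Real.exp (-(t / 4)) := Real.exp_pos _
  have key : ∀ j ∈ Finset.Icc 1 (n - 1), 1 / (j : ℝ) * (L j t * L (n - j) t) ≤
      1 / 32 * (n : ℝ) * Real.sqrt n * Real.exp (-(5 / 4 * t)) := by
    intro j hj
    simp only [Finset.mem_Icc] at hj
    have hj1 : (1 : ℝ) ≤ j := by exact_mod_cast hj.1
    have hjn : (j : ℝ) ≤ n := by exact_mod_cast (by omega : j ≤ n)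
    have h1 := L_le_u hj.1 t
    have h2 := L_le_y (n := n - j) (by omega) ht
    have h3 : Real.sqrt ((n - j : ℕ) : ℝ) ≤ Real.sqrt n := by
      apply Real.sqrt_le_sqrt
      exact_mod_cast (by omega : n - j ≤ n)
    have h4 : L (n - j) t ≤ 1 / 2 * Real.sqrt n * Real.exp (-(t / 4)) := by
      refine h2.trans ?_
      nlinarith
    have h5 : 1 / (j : ℝ) * L j t ≤ (n : ℝ) * Real.exp (-(t / 4)) ^ 4 / 16 := by
      calc 1 / (j : ℝ) * L j t ≤ 1 / (j : ℝ) * ((j : ℝ) * ((j : ℝ) - 1) *
            Real.exp (-(t / 4)) ^ 4 / 16) := mul_le_mul_of_nonneg_left h1 (by positivity)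
        _ = ((j : ℝ) - 1) * Real.exp (-(t / 4)) ^ 4 / 16 := by
            field_simp
        _ ≤ (n : ℝ) * Real.exp (-(t / 4)) ^ 4 / 16 := by
            have : 0 < Real.exp (-(t / 4)) ^ 4 := by positivity
            nlinarith
    calc 1 / (j : ℝ) * (L j t * L (n - j) t) = (1 / (j : ℝ) * L j t) * L (n - j) t := by ring
      _ ≤ ((n : ℝ) * Real.exp (-(t / 4)) ^ 4 / 16) *
            (1 / 2 * Real.sqrt n * Real.exp (-(t / 4))) :=
          mul_le_mul h5 h4 (L_nonneg _ _) (by positivity)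
      _ = _ := by
          rw [exp_five]
          ring
  refine (Finset.sum_le_sum key).trans ?_
  rw [Finset.sum_const, nsmul_eq_mul]
  have hcard : (((Finset.Icc 1 (n - 1)).card : ℕ) : ℝ) ≤ n := by
    simp only [Nat.card_Icc]
    exact_mod_cast (by omega)
  have hpos : 0 ≤ 1 / 32 * (n : ℝ) * Real.sqrt n * Real.exp (-(5 / 4 * t)) := by positivity
  calc _ ≤ (n : ℝ) * (1 / 32 * (n : ℝ) * Real.sqrt n * Real.exp (-(5 / 4 * t))) :=
        mul_le_mul_of_nonneg_right hcard hpos
    _ = _ := by ring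

lemma quad_zero {n : ℕ} (hn : 2 ≤ n) (hn' : n < 4) (t : ℝ) :
    ∑ j ∈ Finset.Icc 1 (n - 1), 1 / (j : ℝ) * (L j t * L (n - j) t) = 0 := by
  apply Finset.sum_eq_zero
  intro j hj
  simp only [Finset.mem_Icc] at hj
  have : j = 1 ∨ n - j = 1 := by omega
  rcases this with h | h
  · rw [h, L_one]; ring
  · rw [h, L_one]; ring

/-- The sum of the linear terms. -/
lemma v_sum {n : ℕ} (hn : 1 ≤ n) (t : ℝ) :
    ∑ j ∈ Finset.Icc 1 (n - 1), 1 / (j : ℝ) * (v j t + v (n - j) t) =
      n * (1 / 16 * Real.exp (-t) * ((lam n - 1) * (n - 1)) -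
        25 / 2 * Real.exp (-(5 / 4 * t)) * ∑ j ∈ Finset.Icc 1 (n - 1), 1 / (j : ℝ) * g (n - j)) := by
  have h1 : ∑ j ∈ Finset.Icc 1 (n - 1), 1 / (j : ℝ) * (v j t + v (n - j) t) =
      ∑ j ∈ Finset.Icc 1 (n - 1), 1 / (j : ℝ) *
        ((j : ℝ) * w t j + ((n : ℝ) - j) * w t (n - j)) := by
    apply Finset.sum_congr rfl
    intro j hj
    simp only [Finset.mem_Icc] at hj
    unfold v
    rw [Nat.cast_sub (by omega)]
  rw [h1, sum_size n (w t)]
  congr 1
  rw [← eig_one hn, Finset.mul_sum, Finset.mul_sum, ← Finset.sum_sub_distrib]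
  apply Finset.sum_congr rfl
  intro j hj
  simp only [Finset.mem_Icc] at hj
  unfold w
  rw [Nat.cast_sub (by omega)]
  ring

/-- The main comparison with the sub-solution. -/
lemma Sys.le_one_sub_L (hF : Sys F) : ∀ n : ℕ, 1 ≤ n → ∀ t : ℝ, 0 ≤ t → F n t ≤ 1 - L n t := by
  intro n
  induction n using Nat.strong_induction_on with
  | _ n ih =>
    intro hn t ht
    rcases Nat.lt_or_ge n 2 with h2 | h2
    · have : n = 1 := by omega
      subst this
      rw [L_one]
      linarith [hF.le_one 1 t]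
    · suffices hv : F n t ≤ 1 - v n t by
        unfold L
        rcases max_choice (v n t) 0 with h | h <;> rw [h]
        · exact hv
        · linarith [hF.le_one n t]
      have hn1 : (2 : ℝ) ≤ n := by exact_mod_cast h2
      set A : ℝ := (n : ℝ) * (1 / 16 * ((n : ℝ) - 1)) with hA
      set C : ℝ := (n : ℝ) * (25 / 2 * g n) with hC
      have hvs : ∀ s, v n s = A * Real.exp (-s) - C * Real.exp (-(5 / 4 * s)) := by
        intro s
        simp only [v, w, hA, hC]
        ring
      have hU : ∀ s, HasDerivAt (fun s => 1 - v n s)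
          (A * Real.exp (-s) - 5 / 4 * C * Real.exp (-(5 / 4 * s))) s := by
        intro s
        have h3 : HasDerivAt (fun s : ℝ => Real.exp (-s)) (-Real.exp (-s)) s := by
          simpa using (hasDerivAt_neg s).exp
        have h4 : HasDerivAt (fun s : ℝ => Real.exp (-(5 / 4 * s)))
            (Real.exp (-(5 / 4 * s)) * (-(5 / 4))) s := by
          have : HasDerivAt (fun s : ℝ => -(5 / 4 * s)) (-(5 / 4)) s := by
            simpa using ((hasDerivAt_id' s).const_mul (5 / 4 : ℝ)).fun_neg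
          exact this.exp
        have h5 := ((h3.const_mul A).fun_sub (h4.const_mul C)).const_sub 1
        have h6 : (fun s => 1 - v n s) = (fun s => 1 - (A * Real.exp (-s) -
            C * Real.exp (-(5 / 4 * s)))) := by
          funext s
          rw [hvs]
        rw [h6]
        refine h5.congr_deriv ?_
        ring
      apply hF.le_of_super h2 ht hU (by fun_prop)
      · have := v_le_one n (le_refl (0 : ℝ))
        linarith
      · intro s hs0 hst
        have key : ∀ j ∈ Finset.Icc 1 (n - 1), 1 / (j : ℝ) * (F j s * F (n - j) s) ≤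
            1 / (j : ℝ) * 1 - 1 / (j : ℝ) * (v j s + v (n - j) s) +
              1 / (j : ℝ) * (L j s * L (n - j) s) := by
          intro j hj
          simp only [Finset.mem_Icc] at hj
          have e1 := ih j (by omega) hj.1 s hs0
          have e2 := ih (n - j) (by omega) (by omega) s hs0
          have e3 : F j s * F (n - j) s ≤ (1 - L j s) * (1 - L (n - j) s) :=
            mul_le_mul e1 e2 (hF.nonneg _ _) (by linarith [hF.nonneg j s])
          have e4 : F j s * F (n - j) s ≤ 1 - (v j s + v (n - j) s) + L j s * L (n - j) s := by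
            have := v_le_L j s
            have := v_le_L (n - j) s
            nlinarith
          have hj0 : (0 : ℝ) ≤ 1 / (j : ℝ) := by positivity
          calc _ ≤ 1 / (j : ℝ) * (1 - (v j s + v (n - j) s) + L j s * L (n - j) s) :=
                mul_le_mul_of_nonneg_left e4 hj0
            _ = _ := by ring
        have hsum := Finset.sum_le_sum key
        rw [Finset.sum_add_distrib, Finset.sum_sub_distrib, v_sum hn] at hsum
        have h6 : ∑ j ∈ Finset.Icc 1 (n - 1), 1 / (j : ℝ) * (1 : ℝ) = lam n := by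
          simp [lam]
        rw [h6] at hsum
        have hgq : (∑ j ∈ Finset.Icc 1 (n - 1), 1 / (j : ℝ) * (L j s * L (n - j) s)) +
            (n : ℝ) * (25 / 2 * Real.exp (-(5 / 4 * s)) *
              ∑ j ∈ Finset.Icc 1 (n - 1), 1 / (j : ℝ) * g (n - j)) ≤
            (n : ℝ) * (25 / 2 * Real.exp (-(5 / 4 * s)) * ((lam n - 5 / 4) * g n)) := by
          have he : 0 < Real.exp (-(5 / 4 * s)) := Real.exp_pos _
          rcases Nat.lt_or_ge n 4 with h4 | h4
          · rw [quad_zero h2 h4, zero_add]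
            apply mul_le_mul_of_nonneg_left _ (by positivity)
            apply mul_le_mul_of_nonneg_left _ (by positivity)
            exact g_sum_le_small h2 h4
          · have e1 := quad_le hn hs0
            have e2 := g_sum_le' h4
            have e3 := mul_le_mul_of_nonneg_left e2
              (show 0 ≤ (n : ℝ) * (25 / 2 * Real.exp (-(5 / 4 * s))) by positivity)
            calc _ ≤ 1 / 32 * (n : ℝ) ^ 2 * Real.sqrt n * Real.exp (-(5 / 4 * s)) +
                  (n : ℝ) * (25 / 2 * Real.exp (-(5 / 4 * s))) *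
                    ((lam n - 5 / 4) * g n - (n : ℝ) * Real.sqrt n / 400) := by linarith
              _ = _ := by ring
        unfold Phi
        refine hsum.trans ?_
        have h7 : A * Real.exp (-s) - 5 / 4 * C * Real.exp (-(5 / 4 * s)) +
            lam n * (1 - v n s) = lam n - (n : ℝ) * (1 / 16 * Real.exp (-s) *
              ((lam n - 1) * (n - 1))) + (n : ℝ) * (25 / 2 * Real.exp (-(5 / 4 * s)) *
                ((lam n - 5 / 4) * g n)) := by
          rw [hvs, hA, hC]
          ring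
        rw [h7]
        linarith

/-! ### The boost -/

/-- The exponent. -/
def eta : ℝ := 1 / (128 * 400 ^ 4)

lemma eta_pos : 0 < eta := by unfold eta; positivity

lemma eta_le : eta ≤ 1 / 16 := by unfold eta; norm_num

/-- For small times the distribution function is bounded away from `1`. -/
lemma Sys.le_theta (hF : Sys F) {m : ℕ} {t : ℝ} (ht : 0 ≤ t)
    (hm : Real.exp (t / 2) ≤ (m : ℝ) - 2) : F m t ≤ 1 - 4 * eta := by
  have hm0 : 0 < (m : ℝ) - 2 := lt_of_lt_of_le (Real.exp_pos _) hm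
  set r := Real.sqrt ((m : ℝ) - 2) with hr
  have hr0 : 0 < r := Real.sqrt_pos.mpr hm0
  have hr2 : r ^ 2 = (m : ℝ) - 2 := Real.sq_sqrt hm0.le
  set T := 4 * Real.log (400 * r) with hT
  have hlogr : Real.log ((m : ℝ) - 2) = 2 * Real.log r := by
    rw [← hr2, Real.log_pow]
    norm_num
  have htT : t ≤ T := by
    have h1 : t / 2 ≤ Real.log ((m : ℝ) - 2) := (Real.le_log_iff_exp_le hm0).mpr hm
    rw [hlogr] at h1
    rw [hT, Real.log_mul (by norm_num) hr0.ne']
    have h2 : 0 ≤ Real.log 400 := Real.log_nonneg (by norm_num)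
    linarith
  have hT0 : 0 ≤ T := ht.trans htT
  have hexp : Real.exp (-(T / 4)) = 1 / (400 * r) := by
    rw [hT, show -(4 * Real.log (400 * r) / 4) = -Real.log (400 * r) by ring, Real.exp_neg,
      Real.exp_log (by positivity)]
    simp
  have hm2 : 2 ≤ m := by
    by_contra hcon
    push Not at hcon
    have : (m : ℝ) < 2 := by exact_mod_cast hcon
    linarith
  have hm1 : 1 ≤ m := by omega
  have hv : v m T = (m : ℝ) * ((m : ℝ) - 1) * (1 / (400 * r)) ^ 4 / 32 := by
    rw [v_eq, ← hr, hexp]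
    field_simp
    ring
  have h1 : F m T ≤ 1 - v m T := by
    have := hF.le_one_sub_L m hm1 T hT0
    have := v_le_L m T
    linarith
  have h2 : 4 * eta ≤ v m T := by
    rw [hv]
    have h3 : (r ^ 2) ^ 2 ≤ (m : ℝ) * ((m : ℝ) - 1) := by
      rw [hr2]
      nlinarith
    have h4 : 4 * eta = (r ^ 2) ^ 2 * (1 / (400 * r)) ^ 4 / 32 := by
      unfold eta
      field_simp
      norm_num
    rw [h4]
    have h5 : 0 < (1 / (400 * r)) ^ 4 := by positivity
    have := mul_le_mul_of_nonneg_right h3 h5.le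
    linarith
  have h6 := hF.mono m htT
  linarith

lemma exp_log_le {x : ℝ} (hx : 0 < x) {p : ℝ} (hp : 0 ≤ p) (hp1 : p ≤ 1) :
    Real.exp (p * Real.log x) ≤ 1 + p * (x - 1) := by
  have h := rpow_one_add_le_one_add_mul_self (s := x - 1) (by linarith) hp hp1
  rw [show 1 + (x - 1) = x by ring, Real.rpow_def_of_pos hx] at h
  rwa [mul_comm] at h

/-- The super-solution. -/
def Up (n : ℕ) (t : ℝ) : ℝ := Real.exp (eta * (Real.log 100 + t / 2 - Real.log n))

lemma Up_ratio {n m : ℕ} (hn : 0 < n) (hm : 0 < m) (t : ℝ) :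
    Up m t = Up n t * Real.exp (eta * Real.log ((n : ℝ) / m)) := by
  unfold Up
  rw [← Real.exp_add, Real.log_div (by positivity) (by positivity)]
  congr 1
  ring

lemma mid_card {n : ℕ} (hn : 4 ≤ n) :
    ((n : ℝ) - 1) / 4 ≤
      (((Finset.Icc 1 (n - 1)).filter (fun j => n ≤ 4 * j ∧ 2 * j ≤ n)).card : ℝ) := by
  have h1 : Finset.Icc ((n + 3) / 4) (n / 2) ⊆
      (Finset.Icc 1 (n - 1)).filter (fun j => n ≤ 4 * j ∧ 2 * j ≤ n) := by
    intro j hj
    simp only [Finset.mem_Icc, Finset.mem_filter] at hj ⊢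
    omega
  have h2 := Finset.card_le_card h1
  rw [Nat.card_Icc] at h2
  have h3 : n - 1 ≤ 4 * ((Finset.Icc 1 (n - 1)).filter (fun j => n ≤ 4 * j ∧ 2 * j ≤ n)).card := by
    omega
  have h4 : ((n - 1 : ℕ) : ℝ) ≤
      4 * (((Finset.Icc 1 (n - 1)).filter (fun j => n ≤ 4 * j ∧ 2 * j ≤ n)).card : ℝ) := by
    exact_mod_cast h3
  rw [Nat.cast_sub (by omega)] at h4
  push_cast at h4
  linarith

/-- The main bound: the distribution function is small up to time `2 log n`. -/
lemma Sys.le_Up (hF : Sys F) : ∀ n : ℕ, 1 ≤ n → ∀ t : ℝ, 0 ≤ t → F n t ≤ Up n t := by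
  intro n
  induction n using Nat.strong_induction_on with
  | _ n ih =>
    intro hn t ht
    have hn0 : (0 : ℝ) < n := by exact_mod_cast hn
    by_cases hbig : (n : ℝ) ≤ 100 * Real.exp (t / 2)
    · have h1 : 1 ≤ Up n t := by
        unfold Up
        apply Real.one_le_exp
        apply mul_nonneg eta_pos.le
        have : Real.log n ≤ Real.log (100 * Real.exp (t / 2)) := Real.log_le_log hn0 hbig
        rw [Real.log_mul (by norm_num) (Real.exp_pos _).ne', Real.log_exp] at this
        linarith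
      exact (hF.le_one n t).trans h1
    · push Not at hbig
      have hexp1 : 1 ≤ Real.exp (t / 2) := Real.one_le_exp (by linarith)
      have hn100 : (100 : ℝ) < n := by linarith
      have hn100' : 100 < n := by exact_mod_cast hn100
      have hU : ∀ s, HasDerivAt (fun s => Up n s) (eta / 2 * Up n s) s := by
        intro s
        have h1 : HasDerivAt (fun s : ℝ => eta * (Real.log 100 + s / 2 - Real.log n))
            (eta * (1 / 2)) s := by
          have h2 : HasDerivAt (fun s : ℝ => s / 2) (1 / 2) s := (hasDerivAt_id' s).div_const 2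
          exact ((h2.const_add (Real.log 100)).sub_const (Real.log n)).const_mul eta
        refine h1.exp.congr_deriv ?_
        unfold Up
        ring
      have hUc : Continuous (fun s => eta / 2 * Up n s) := by
        unfold Up
        fun_prop
      apply hF.le_of_super (by omega) ht hU hUc (Real.exp_pos _).le
      intro s hs0 hst
      have hes : Real.exp (s / 2) ≤ Real.exp (t / 2) := Real.exp_le_exp.mpr (by linarith)
      have hUp0 : 0 < Up n s := Real.exp_pos _
      have heta := eta_pos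
      have heta1 := eta_le
      have key : ∀ j ∈ Finset.Icc 1 (n - 1), 1 / (j : ℝ) * (F j s * F (n - j) s) ≤
          Up n s * (1 / (j : ℝ) + 2 * eta / n -
            (if n ≤ 4 * j ∧ 2 * j ≤ n then 8 * eta / n else 0)) := by
        intro j hj
        simp only [Finset.mem_Icc] at hj
        have hj0 : (0 : ℝ) < j := by exact_mod_cast hj.1
        have hjn : (j : ℝ) < n := by exact_mod_cast (by omega : j < n)
        have f1 := ih j (by omega) hj.1 s hs0
        have f2 := ih (n - j) (by omega) (by omega) s hs0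
        have hcast : ((n - j : ℕ) : ℝ) = (n : ℝ) - j := by rw [Nat.cast_sub (by omega)]
        by_cases h2j : 2 * j ≤ n
        · have h2j' : 2 * (j : ℝ) ≤ n := by exact_mod_cast h2j
          -- bound for F (n - j)
          have f3 : F (n - j) s ≤ Up n s * (1 + 2 * eta * j / n) := by
            refine f2.trans ?_
            rw [Up_ratio (n := n) (m := n - j) (by omega) (by omega), hcast]
            apply mul_le_mul_of_nonneg_left _ hUp0.le
            have hpos : 0 < (n : ℝ) - j := by linarith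
            refine (exp_log_le (by positivity) heta.le (by linarith)).trans ?_
            have h3 : (n : ℝ) / (n - j) - 1 ≤ 2 * j / n := by
              rw [div_sub_one hpos.ne', div_le_div_iff₀ hpos hn0]
              nlinarith
            have h4 := mul_le_mul_of_nonneg_left h3 heta.le
            calc _ ≤ 1 + eta * (2 * j / n) := by linarith
              _ = _ := by ring
          by_cases h4j : n ≤ 4 * j
          · have h4j' : (n : ℝ) ≤ 4 * j := by exact_mod_cast h4j
            rw [if_pos ⟨h4j, h2j⟩]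
            have f4 : F j s ≤ 1 - 4 * eta := by
              apply hF.le_theta hs0
              linarith
            have hx : 0 ≤ 2 * eta * j / n := by positivity
            have f5 : F j s * F (n - j) s ≤ (1 - 4 * eta) * (Up n s * (1 + 2 * eta * j / n)) :=
              mul_le_mul f4 f3 (hF.nonneg _ _) (by linarith)
            have f6 : (1 - 4 * eta) * (Up n s * (1 + 2 * eta * j / n)) ≤
                Up n s * (1 + 2 * eta * j / n - 4 * eta) := by
              have : 0 ≤ Up n s * (4 * eta * (2 * eta * j / n)) := by positivity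
              nlinarith
            calc 1 / (j : ℝ) * (F j s * F (n - j) s)
                ≤ 1 / (j : ℝ) * (Up n s * (1 + 2 * eta * j / n - 4 * eta)) :=
                  mul_le_mul_of_nonneg_left (f5.trans f6) (by positivity)
              _ = Up n s * (1 / (j : ℝ) + 2 * eta / n - 4 * eta / j) := by
                  field_simp
              _ ≤ Up n s * (1 / (j : ℝ) + 2 * eta / n - 8 * eta / n) := by
                  apply mul_le_mul_of_nonneg_left _ hUp0.le
                  have : 8 * eta / n ≤ 4 * eta / j := by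
                    rw [div_le_div_iff₀ hn0 hj0]
                    nlinarith
                  linarith
          · rw [if_neg (by tauto)]
            have f5 : F j s * F (n - j) s ≤ 1 * (Up n s * (1 + 2 * eta * j / n)) :=
              mul_le_mul (hF.le_one _ _) f3 (hF.nonneg _ _) (by norm_num)
            calc 1 / (j : ℝ) * (F j s * F (n - j) s)
                ≤ 1 / (j : ℝ) * (1 * (Up n s * (1 + 2 * eta * j / n))) :=
                  mul_le_mul_of_nonneg_left f5 (by positivity)
              _ = Up n s * (1 / (j : ℝ) + 2 * eta / n - 0) := by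
                  field_simp
                  ring
        · rw [if_neg (by tauto)]
          push Not at h2j
          have h2j' : (n : ℝ) < 2 * j := by exact_mod_cast h2j
          have f3 : F j s ≤ Up n s * (1 + eta) := by
            refine f1.trans ?_
            rw [Up_ratio (n := n) (m := j) (by omega) (by omega)]
            apply mul_le_mul_of_nonneg_left _ hUp0.le
            refine (exp_log_le (by positivity) heta.le (by linarith)).trans ?_
            have h3 : (n : ℝ) / j - 1 ≤ 1 := by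
              rw [div_sub_one hj0.ne', div_le_one hj0]
              linarith
            have h4 := mul_le_mul_of_nonneg_left h3 heta.le
            linarith
          have f5 : F j s * F (n - j) s ≤ Up n s * (1 + eta) * 1 :=
            mul_le_mul f3 (hF.le_one _ _) (hF.nonneg _ _) (by positivity)
          calc 1 / (j : ℝ) * (F j s * F (n - j) s)
              ≤ 1 / (j : ℝ) * (Up n s * (1 + eta) * 1) :=
                mul_le_mul_of_nonneg_left f5 (by positivity)
            _ = Up n s * (1 / (j : ℝ) + eta / j) := by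
                field_simp
            _ ≤ Up n s * (1 / (j : ℝ) + 2 * eta / n - 0) := by
                apply mul_le_mul_of_nonneg_left _ hUp0.le
                have : eta / j ≤ 2 * eta / n := by
                  rw [div_le_div_iff₀ hj0 hn0]
                  nlinarith
                linarith
      have hsum := Finset.sum_le_sum key
      rw [← Finset.mul_sum, Finset.sum_sub_distrib, Finset.sum_add_distrib, Finset.sum_const,
        ← Finset.sum_filter, Finset.sum_const, nsmul_eq_mul, nsmul_eq_mul] at hsum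
      have hmid := mid_card (n := n) (by omega)
      have hcard : (((Finset.Icc 1 (n - 1)).card : ℕ) : ℝ) ≤ n := by
        simp only [Nat.card_Icc]
        exact_mod_cast (by omega)
      unfold Phi
      refine hsum.trans ?_
      have h1 : (((Finset.Icc 1 (n - 1)).card : ℕ) : ℝ) * (2 * eta / n) ≤ 2 * eta := by
        calc _ ≤ (n : ℝ) * (2 * eta / n) := mul_le_mul_of_nonneg_right hcard (by positivity)
          _ = 2 * eta := by field_simp
      have h2 : 2 * eta - 2 * eta / n ≤
          (((Finset.Icc 1 (n - 1)).filter (fun j => n ≤ 4 * j ∧ 2 * j ≤ n)).card : ℝ) *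
            (8 * eta / n) := by
        calc 2 * eta - 2 * eta / n = ((n : ℝ) - 1) / 4 * (8 * eta / n) := by
              field_simp
              ring
          _ ≤ _ := mul_le_mul_of_nonneg_right hmid (by positivity)
      have h3 : 2 * eta / n ≤ eta / 2 := by
        rw [div_le_div_iff₀ hn0 (by norm_num)]
        nlinarith
      have h4 : ∑ j ∈ Finset.Icc 1 (n - 1), 1 / (j : ℝ) = lam n := rfl
      rw [h4]
      calc _ ≤ Up n s * (lam n + eta / 2) := by
            apply mul_le_mul_of_nonneg_left _ hUp0.le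
            linarith
        _ = _ := by ring

end

end Pool.Agent.Helper48.CTCS
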